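import Mathlib
import Pool.Agent.Y729.RV.Near

/-!
# The points `(a : b : c)` with `a + b + c = 0` and the coordinate `a / (b - c)`
-/

set_option autoImplicit false

namespace Pool.Agent.Y729.AX

open NumberField IsDedekindDomain Module Height

section ht

variable {L : Type} [Field L] [NumberField L]

/-- the matrix -/
def mat (L : Type) [Field L] : Fin 3 × Fin 2 → L :=
  fun p => !![-1, -1; 1, 0; 0, 1] p.1 p.2

omit [NumberField L] in
theorem mat_le (v : AbsoluteValue L ℝ) : ⨆ p, v (mat L p) = 1 := by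
  have h1 : ∀ p, v (mat L p) ≤ 1 := by
    rintro ⟨i, j⟩
    fin_cases i <;> fin_cases j <;> simp [mat]
  refine le_antisymm (ciSup_le h1) ?_
  refine le_ciSup_of_le (Set.finite_range _).bddAbove ((1 : Fin 3), (0 : Fin 2)) ?_
  simp [mat]

theorem mat_ht : mulHeight (mat L) = 1 := by
  have h0 : mat L ≠ 0 := by
    intro h
    have := congrFun h ((1 : Fin 3), (0 : Fin 2))
    simp [mat] at this
  rw [Height.mulHeight_eq h0]
  simp [mat_le]

theorem pair_le {x : Fin 3 → L} (hx : x 0 + x 1 + x 2 = 0) :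
    logHeight x ≤ finrank ℚ L * Real.log 2 + logHeight ![x 1, x 2] := by
  have h1 := logHeight_linearMap_apply_le (mat L) ![x 1, x 2]
  have h2 : (fun j => ∑ i, mat L (j, i) * ![x 1, x 2] i) = x := by
    funext j
    fin_cases j
    · simp [mat, Fin.sum_univ_two]
      linear_combination -hx
    · simp [mat, Fin.sum_univ_two]
    · simp [mat, Fin.sum_univ_two]
  rw [h2, logHeight_eq_log_mulHeight (mat L), mat_ht, Real.log_one,
    NumberField.totalWeight_eq_finrank] at h1
  simp only [Nat.card_eq_fintype_card, Fintype.card_fin] at h1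
  push_cast at h1
  linarith

theorem pair_ge (x : Fin 3 → L) : logHeight ![x 1, x 2] ≤ logHeight x := by
  have h := logHeight_comp_le (![1, 2] : Fin 2 → Fin 3) x
  have h2 : x ∘ (![1, 2] : Fin 2 → Fin 3) = ![x 1, x 2] := by
    funext i
    fin_cases i <;> rfl
  rwa [h2] at h

theorem ht_two : logHeight₁ (2 : L) ≤ finrank ℚ L * Real.log 2 := by
  have h := logHeight₁_add_le (1 : L) 1
  rw [logHeight₁_one, NumberField.totalWeight_eq_finrank, one_add_one_eq_two] at h
  linarith

theorem ht_up {x : Fin 3 → L} (hx : x 0 + x 1 + x 2 = 0) (h12 : x 1 ≠ x 2) (h2 : x 2 ≠ 0) :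
    logHeight x ≤ 4 * (finrank ℚ L * Real.log 2) + logHeight₁ (x 0 / (x 1 - x 2)) := by
  have hs : x 1 - x 2 ≠ 0 := sub_ne_zero.2 h12
  set y := x 0 / (x 1 - x 2) with hy
  have hx0 : x 0 = -(x 1) - x 2 := by linear_combination hx
  have hy1 : y + 1 = -2 * x 2 / (x 1 - x 2) := by
    rw [hy, hx0]
    field_simp
    ring
  have hy0 : y + 1 ≠ 0 := by
    rw [hy1]
    exact div_ne_zero (mul_ne_zero (by norm_num) h2) hs
  have hq : x 1 / x 2 = 1 - 2 * (y + 1)⁻¹ := by
    rw [hy1]
    field_simp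
    ring
  have h3 := pair_le hx
  have h4 : logHeight ![x 1, x 2] = logHeight₁ (x 1 / x 2) := (logHeight₁_div_eq_logHeight _ _).symm
  have h5 := logHeight₁_sub_le (1 : L) (2 * (y + 1)⁻¹)
  have h6 := logHeight₁_mul_le (2 : L) (y + 1)⁻¹
  have h7 := logHeight₁_add_le y (1 : L)
  have h8 := ht_two (L := L)
  rw [logHeight₁_inv] at h6
  rw [NumberField.totalWeight_eq_finrank, logHeight₁_one] at h5 h7
  rw [h4, hq] at h3
  linarith

theorem ht_down {x : Fin 3 → L} (hx : x 0 + x 1 + x 2 = 0) (h12 : x 1 ≠ x 2) (h2 : x 2 ≠ 0) :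
    logHeight₁ (x 0 / (x 1 - x 2)) ≤ 3 * (finrank ℚ L * Real.log 2) + logHeight x := by
  have hs : x 1 - x 2 ≠ 0 := sub_ne_zero.2 h12
  have hx0 : x 0 = -(x 1) - x 2 := by linear_combination hx
  set u := x 1 / x 2 with hu
  have hu1 : u - 1 = (x 1 - x 2) / x 2 := by
    rw [hu]
    field_simp
  have hu0 : u - 1 ≠ 0 := by
    rw [hu1]
    exact div_ne_zero hs h2
  have hq : x 0 / (x 1 - x 2) = -(1 + 2 * (u - 1)⁻¹) := by
    rw [hu1, hx0]
    field_simp
    ring
  have h3 := pair_ge x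
  have h4 : logHeight ![x 1, x 2] = logHeight₁ u := (logHeight₁_div_eq_logHeight _ _).symm
  have h5 := logHeight₁_add_le (1 : L) (2 * (u - 1)⁻¹)
  have h6 := logHeight₁_mul_le (2 : L) (u - 1)⁻¹
  have h7 := logHeight₁_sub_le u (1 : L)
  have h8 := ht_two (L := L)
  rw [logHeight₁_inv] at h6
  rw [NumberField.totalWeight_eq_finrank, logHeight₁_one] at h5 h7
  rw [h4] at h3
  rw [hq, logHeight₁_neg]
  linarith

end ht

section near

variable {K L : Type} [Field K] [NumberField K] [Field L] [NumberField L] [Algebra K L]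

/-- the three points -/
def pts (K : Type) [Field K] : Fin 3 → K := ![0, 1, -1]

omit [NumberField K] in
theorem pts_inj [CharZero K] : Function.Injective (pts K) := by
  intro i j h
  fin_cases i <;> fin_cases j <;> simp [pts] at h ⊢ <;> norm_num at h

omit [NumberField K] in
theorem near_ne {S : Finset ℕ} (hS2 : 2 ∈ S) {x : Fin 3 → L} (hx : x 0 + x 1 + x 2 = 0)
    (h12 : x 1 ≠ x 2) (h0 : x 0 ≠ 0) {w : HeightOneSpectrum (𝓞 L)}
    (hw : Pool.Agent.Y729.RV.Nr S (pts K) (x 0 / (x 1 - x 2)) w) :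
    ¬ (w.valuation L (x 0) = w.valuation L (x 1) ∧ w.valuation L (x 1) = w.valuation L (x 2)) := by
  rintro ⟨e1, e2⟩
  obtain ⟨hS, hle, j, hj⟩ := hw
  have hs : x 1 - x 2 ≠ 0 := sub_ne_zero.2 h12
  have hv2 : w.valuation L (2 : L) = 1 := by
    have h2 : ((2 : ℕ) : 𝓞 L) ∉ w.asIdeal := hS 2 hS2
    have h3 : w.valuation L (((2 : ℕ) : 𝓞 L) : L) ≤ 1 := w.valuation_le_one _
    have h4 : w.valuation L (((2 : ℕ) : 𝓞 L) : L) < 1 ↔ ((2 : ℕ) : 𝓞 L) ∈ w.asIdeal :=
      w.valuation_lt_one_iff_mem _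
    have h5 : ∀ m : ℕ, (((m : 𝓞 L)) : L) = (m : L) := fun m => by simp
    rw [h5 2, Nat.cast_ofNat] at h3 h4
    exact le_antisymm h3 (not_lt.1 fun h => h2 (h4.1 h))
  have hg : w.valuation L (x 0) ≠ 0 := (Valuation.ne_zero_iff _).2 h0
  have hsv : w.valuation L (x 1 - x 2) ≠ 0 := (Valuation.ne_zero_iff _).2 hs
  have hup : w.valuation L (x 1 - x 2) ≤ w.valuation L (x 0) := by
    refine ((w.valuation L).map_sub (x 1) (x 2)).trans ?_
    rw [← e2, max_self, e1]
  have hlow : w.valuation L (x 0) ≤ w.valuation L (x 1 - x 2) := by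
    rw [map_div₀] at hle
    exact (div_le_one₀ (zero_lt_iff.2 hsv)).1 hle
  have hse : w.valuation L (x 1 - x 2) = w.valuation L (x 0) := le_antisymm hup hlow
  have hx0 : x 0 = -(x 1) - x 2 := by linear_combination hx
  fin_cases j
  · have h1 : x 0 / (x 1 - x 2) - algebraMap K L (pts K 0) = x 0 / (x 1 - x 2) := by
      simp [pts]
    change w.valuation L (x 0 / (x 1 - x 2) - algebraMap K L (pts K 0)) < 1 at hj
    rw [h1, map_div₀, hse, div_self hg] at hj
    exact lt_irrefl _ hj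
  · have h1 : x 0 / (x 1 - x 2) - algebraMap K L (pts K 1) = -2 * x 1 / (x 1 - x 2) := by
      simp only [pts, Matrix.cons_val_one, Matrix.cons_val_zero, map_one]
      rw [hx0]
      field_simp
      ring
    change w.valuation L (x 0 / (x 1 - x 2) - algebraMap K L (pts K 1)) < 1 at hj
    rw [h1, map_div₀, map_mul, Valuation.map_neg, hv2, one_mul, hse, ← e1, div_self hg] at hj
    exact lt_irrefl _ hj
  · have h1 : x 0 / (x 1 - x 2) - algebraMap K L (pts K 2) = -2 * x 2 / (x 1 - x 2) := by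
      have h9 : pts K 2 = -1 := rfl
      rw [h9, map_neg, map_one, hx0]
      field_simp
      ring
    change w.valuation L (x 0 / (x 1 - x 2) - algebraMap K L (pts K 2)) < 1 at hj
    rw [h1, map_div₀, map_mul, Valuation.map_neg, hv2, one_mul, hse, ← e2, ← e1,
      div_self hg] at hj
    exact lt_irrefl _ hj

omit [NumberField K] [NumberField L] in
/-- the coordinate is none of the three points -/
theorem ne_pts [CharZero L] {x : Fin 3 → L} (hx : x 0 + x 1 + x 2 = 0)
    (h12 : x 1 ≠ x 2) (h0 : x 0 ≠ 0) (h1 : x 1 ≠ 0) (h2 : x 2 ≠ 0) (j : Fin 3) :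
    x 0 / (x 1 - x 2) ≠ algebraMap K L (pts K j) := by
  have hs : x 1 - x 2 ≠ 0 := sub_ne_zero.2 h12
  have hx0 : x 0 = -(x 1) - x 2 := by linear_combination hx
  rw [Ne, ← sub_eq_zero]
  fin_cases j
  · have e : x 0 / (x 1 - x 2) - algebraMap K L (pts K 0) = x 0 / (x 1 - x 2) := by
      simp [pts]
    change x 0 / (x 1 - x 2) - algebraMap K L (pts K 0) ≠ 0
    rw [e]
    exact div_ne_zero h0 hs
  · have e : x 0 / (x 1 - x 2) - algebraMap K L (pts K 1) = -2 * x 1 / (x 1 - x 2) := by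
      simp only [pts, Matrix.cons_val_one, Matrix.cons_val_zero, map_one]
      rw [hx0]
      field_simp
      ring
    change x 0 / (x 1 - x 2) - algebraMap K L (pts K 1) ≠ 0
    rw [e]
    exact div_ne_zero (mul_ne_zero (by norm_num) h1) hs
  · have e : x 0 / (x 1 - x 2) - algebraMap K L (pts K 2) = -2 * x 2 / (x 1 - x 2) := by
      have h9 : pts K 2 = -1 := rfl
      rw [h9, map_neg, map_one, hx0]
      field_simp
      ring
    change x 0 / (x 1 - x 2) - algebraMap K L (pts K 2) ≠ 0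
    rw [e]
    exact div_ne_zero (mul_ne_zero (by norm_num) h2) hs

omit [NumberField L] in
theorem not_mem_of_primes {v : HeightOneSpectrum (𝓞 L)} {n : ℕ} (hn : n ≠ 0)
    (h : ∀ p ∈ n.primeFactors, (p : 𝓞 L) ∉ v.asIdeal) : (n : 𝓞 L) ∉ v.asIdeal := by
  induction n using Nat.recOnMul with
  | zero => exact absurd rfl hn
  | one =>
    intro h1
    exact v.isPrime.ne_top ((Ideal.eq_top_iff_one _).mpr (by simpa using h1))
  | prime p hp =>
    exact h p (by rw [hp.primeFactors]; exact Finset.mem_singleton_self _)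
  | mul a b iha ihb =>
    have ha : a ≠ 0 := fun h => hn (by rw [h, zero_mul])
    have hb : b ≠ 0 := fun h => hn (by rw [h, mul_zero])
    intro h1
    push_cast at h1
    rw [Nat.primeFactors_mul ha hb] at h
    rcases v.isPrime.mem_or_mem h1 with h2 | h2
    · exact iha ha (fun p hp => h p (Finset.mem_union_left _ hp)) h2
    · exact ihb hb (fun p hp => h p (Finset.mem_union_right _ hp)) h2

end near

end Pool.Agent.Y729.AX
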