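import Mathlib
import Pool.Agent.Y729.RV.PF
import Pool.Agent.Y729.AE.PerField
import Pool.Agent.Y729.AE.Frey

/-!
# Pairs of an extension field and an element with few bad primes
-/

set_option autoImplicit false

namespace Pool.Agent.Y729.AX

open NumberField IsDedekindDomain Module Height IntermediateField
open Pool.Agent.W301.Lin (FS)
open Pool.Agent.W222.UABC (exp_sum)
open Pool.Agent.Y729.AE (dL dL_eq dL_nonneg count_dL finite_of_card)
open Pool.Agent.Y729.RV (cnt cnt_nonneg per_field)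

open scoped Classical

variable {K : Type} [Field K] [NumberField K] {q : ℕ}

/-- the pairs of a field of degree `r` and an element with small truncated counting function plus
discriminant -/
def Pr (S : Finset ℕ) (a : Fin q → K) (r : ℕ) (X Y : ℝ) :
    Set (IntermediateField K (AlgebraicClosure K) × AlgebraicClosure K) :=
  {p | ∃ (_ : NumberField p.1) (x : p.1), (x : AlgebraicClosure K) = p.2 ∧ finrank K p.1 = r ∧
    (∀ j, x ≠ algebraMap K p.1 (a j)) ∧ logHeight₁ x ≤ X ∧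
    cnt S a x + Real.log |(discr p.1 : ℝ)| ≤ Y}

theorem pair_count (S : Finset ℕ) (hS : ∀ p ∈ S, p.Prime) (a : Fin q → K)
    (ha : Function.Injective a) (hq : 2 ≤ q) (r : ℕ) (e : ℝ) (he : 0 ≤ e) (C : ℝ)
    (hC : 0 < C)
    (hF : ∀ X : ℝ, 1 ≤ X → (FS K r X).Finite ∧ ((FS K r X).ncard : ℝ) ≤ C * X ^ e)
    {ε : ℝ} (hε : 0 < ε) :
    ∃ D : ℝ, 0 < D ∧ ∀ X Y : ℝ, 0 ≤ X → 0 ≤ Y → (Pr S a r X Y).Finite ∧
      ((Pr S a r X Y).ncard : ℝ) ≤
        D * (Y + 1) * Real.exp (2 / q * Y + max (e - 2 / q) 0 * Y + ε * (X + Y)) := by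
  obtain ⟨D, hD, hpf⟩ := per_field hq S hS a ha (finrank ℚ K * r) hε
  refine ⟨D * (C * Real.exp e), by positivity, ?_⟩
  intro X Y hX hY
  refine finite_of_card _ _ fun E hE => ?_
  have hEm : ∀ p ∈ E, p ∈ Pr S a r X Y := fun p hp => hE (Finset.mem_coe.2 hp)
  set F : Finset (IntermediateField K (AlgebraicClosure K)) := E.image Prod.fst with hFd
  have hcard : (E.card : ℝ) = ∑ L ∈ F, ((E.filter fun p => p.1 = L).card : ℝ) := by
    rw [Finset.card_eq_sum_card_image Prod.fst E]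
    push_cast
    rfl
  have hone : ∀ L ∈ F, ((E.filter fun p => p.1 = L).card : ℝ) ≤
      D * Real.exp (2 / q * Y + ε * (X + Y)) * Real.exp (-(2 / q * dL L)) := by
    intro L hL
    obtain ⟨p0, hp0, rfl⟩ := Finset.mem_image.1 hL
    obtain ⟨hnf, x0, -, hr0, -, -, hY0⟩ := hEm p0 hp0
    set f : AlgebraicClosure K → p0.1 := fun y => if h : y ∈ p0.1 then ⟨y, h⟩ else 0 with hf
    set G := E.filter fun p => p.1 = p0.1 with hG
    have hGm : ∀ p ∈ G, p ∈ E ∧ p.1 = p0.1 := fun p hp => Finset.mem_filter.1 hp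
    have hgx : ∀ p ∈ G, ∃ x : p0.1, (x : AlgebraicClosure K) = p.2 ∧ f p.2 = x ∧
        (∀ j, x ≠ algebraMap K p0.1 (a j)) ∧ logHeight₁ x ≤ X ∧
        cnt S a x + Real.log |(discr p0.1 : ℝ)| ≤ Y := by
      rintro ⟨p1, p2⟩ hp
      obtain ⟨hpE, hp1⟩ := hGm _ hp
      simp only at hp1
      subst hp1
      obtain ⟨_, x, hx, _, hx1, hx2, hx3⟩ := hEm _ hpE
      refine ⟨x, hx, ?_, hx1, hx2, hx3⟩
      rw [hf]
      simp only at hx
      simp only
      rw [← hx, dif_pos x.2]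
    have hinj : Set.InjOn (fun p : IntermediateField K (AlgebraicClosure K) ×
        AlgebraicClosure K => f p.2) (G : Set _) := by
      intro p hp q hq hpq
      obtain ⟨x, hx, hgx', -⟩ := hgx p (Finset.mem_coe.1 hp)
      obtain ⟨y, hy, hgy', -⟩ := hgx q (Finset.mem_coe.1 hq)
      simp only at hpq
      rw [hgx', hgy'] at hpq
      refine Prod.ext ((hGm p (Finset.mem_coe.1 hp)).2.trans
        (hGm q (Finset.mem_coe.1 hq)).2.symm) ?_
      rw [← hx, ← hy, hpq]
    rw [← Finset.card_image_of_injOn hinj]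
    have hdeg : finrank ℚ p0.1 = finrank ℚ K * r := by
      rw [← finrank_mul_finrank ℚ K p0.1, hr0]
    have hcn := cnt_nonneg S a x0
    have hd0 : 0 ≤ dL p0.1 := dL_nonneg _
    have hZ : 0 ≤ Y - dL p0.1 := by
      rw [dL_eq]
      linarith
    refine (hpf p0.1 hdeg X (Y - dL p0.1) hX hZ _ ?_).trans ?_
    · intro y hy
      obtain ⟨p, hp, rfl⟩ := Finset.mem_image.1 hy
      obtain ⟨x, -, hgx', hx1, hx2, hx3⟩ := hgx p hp
      rw [hgx']
      refine ⟨hx1, hx2, ?_⟩
      rw [dL_eq]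
      linarith
    · rw [mul_assoc, ← Real.exp_add]
      refine mul_le_mul_of_nonneg_left (Real.exp_le_exp.2 ?_) hD.le
      have : ε * (X + (Y - dL p0.1)) ≤ ε * (X + Y) := by
        refine mul_le_mul_of_nonneg_left ?_ hε.le
        linarith
      have e1 : 2 / (q : ℝ) * (Y - dL p0.1) = 2 / q * Y - 2 / q * dL p0.1 := by ring
      rw [e1]
      linarith
  have hd1 : ∀ L ∈ F, dL L ≤ Y := by
    intro L hL
    obtain ⟨p0, hp0, rfl⟩ := Finset.mem_image.1 hL
    obtain ⟨hnf, x0, -, hr0, -, -, hY0⟩ := hEm p0 hp0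
    have hcn := cnt_nonneg S a x0
    rw [dL_eq]
    linarith
  have hFg : ∀ L ∈ F, FiniteDimensional K L ∧ finrank K L = r := by
    intro L hL
    obtain ⟨p0, hp0, rfl⟩ := Finset.mem_image.1 hL
    obtain ⟨hnf, x0, -, hr0, -, -, hY0⟩ := hEm p0 hp0
    exact ⟨Module.Finite.of_restrictScalars_finite ℚ K p0.1, hr0⟩
  have hsum := exp_sum F dL C e (2 / q) Y hC.le he (by positivity) hY
    (fun L _ => dL_nonneg L) hd1 (fun s hs => count_dL r C e hF F hFg s hs)
  calc (E.card : ℝ) = ∑ L ∈ F, ((E.filter fun p => p.1 = L).card : ℝ) := hcard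
    _ ≤ ∑ L ∈ F, D * Real.exp (2 / q * Y + ε * (X + Y)) * Real.exp (-(2 / q * dL L)) :=
        Finset.sum_le_sum hone
    _ = D * Real.exp (2 / q * Y + ε * (X + Y)) * ∑ L ∈ F, Real.exp (-(2 / q * dL L)) := by
        rw [Finset.mul_sum]
    _ ≤ D * Real.exp (2 / q * Y + ε * (X + Y)) *
          (C * Real.exp e * (Y + 1) * Real.exp (max (e - 2 / q) 0 * Y)) :=
        mul_le_mul_of_nonneg_left hsum (by positivity)
    _ = D * (C * Real.exp e) * (Y + 1) *
          (Real.exp (2 / q * Y + ε * (X + Y)) * Real.exp (max (e - 2 / q) 0 * Y)) := by ring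
    _ = _ := by
        rw [← Real.exp_add]
        congr 2
        ring

/-- the pairs in terms of one large parameter -/
theorem pair_main (S : Finset ℕ) (hS : ∀ p ∈ S, p.Prime) (a : Fin q → K)
    (ha : Function.Injective a) (hq : 2 ≤ q) (r : ℕ) (e : ℝ) (he : 0 ≤ e) (C : ℝ)
    (hC : 0 < C)
    (hF : ∀ X : ℝ, 1 ≤ X → (FS K r X).Finite ∧ ((FS K r X).ncard : ℝ) ≤ C * X ^ e)
    (α : ℝ) (hα : e ≤ α) (hα2 : 2 / (q : ℝ) ≤ α) (A P c : ℝ) (hA : 0 ≤ A) (hP : 0 ≤ P)
    (hc : 0 ≤ c) {δ : ℝ} (hδ : 0 < δ) :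
    ∃ D : ℝ, 0 < D ∧ ∀ T : ℝ, 0 ≤ T → (Pr S a r (A * T + c) (P * T + c)).Finite ∧
      ((Pr S a r (A * T + c) (P * T + c)).ncard : ℝ) ≤ D * Real.exp ((α * P + δ) * T) := by
  set ε : ℝ := δ / (2 * (A + P + 1)) with hε
  have hε0 : 0 < ε := by positivity
  obtain ⟨D, hD, hcount⟩ := pair_count S hS a ha hq r e he C hC hF hε0
  have hq0 : (0 : ℝ) < q := by exact_mod_cast (show 0 < q by omega)
  have hmax : 2 / (q : ℝ) + max (e - 2 / q) 0 ≤ α := by
    rcases le_total (e - 2 / (q : ℝ)) 0 with h | h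
    · rw [max_eq_right h]
      linarith
    · rw [max_eq_left h]
      linarith
  have hα0 : 0 ≤ α := le_trans (by positivity) hα2
  refine ⟨D * (P * (2 / δ) + c + 1) * Real.exp (α * c + ε * (c + c)), by positivity, ?_⟩
  intro T hT
  obtain ⟨h1, h2⟩ := hcount (A * T + c) (P * T + c) (by positivity) (by positivity)
  refine ⟨h1, h2.trans ?_⟩
  have e1 : δ / 2 * T ≤ Real.exp (δ / 2 * T) := by
    have := Real.add_one_le_exp (δ / 2 * T)
    linarith
  have e2 : 1 ≤ Real.exp (δ / 2 * T) := Real.one_le_exp (by positivity)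
  have e3 : P * T + c + 1 ≤ (P * (2 / δ) + c + 1) * Real.exp (δ / 2 * T) := by
    have e4 : P * T = P * (2 / δ) * (δ / 2 * T) := by field_simp
    have e5 : P * (2 / δ) * (δ / 2 * T) ≤ P * (2 / δ) * Real.exp (δ / 2 * T) :=
      mul_le_mul_of_nonneg_left e1 (by positivity)
    have e6 : c + 1 ≤ (c + 1) * Real.exp (δ / 2 * T) := le_mul_of_one_le_right (by linarith) e2
    linarith
  have e7 : 2 / q * (P * T + c) + max (e - 2 / q) 0 * (P * T + c) +
      ε * (A * T + c + (P * T + c)) ≤ (α * P + δ / 2) * T + (α * c + ε * (c + c)) := by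
    have e8 : (2 / (q : ℝ) + max (e - 2 / q) 0) * (P * T + c) ≤ α * (P * T + c) :=
      mul_le_mul_of_nonneg_right hmax (by positivity)
    have e9 : ε * (A + P) ≤ δ / 2 := by
      rw [hε, div_mul_eq_mul_div, div_le_div_iff₀ (by positivity) (by norm_num)]
      nlinarith
    have e10 : ε * (A + P) * T ≤ δ / 2 * T := mul_le_mul_of_nonneg_right e9 hT
    nlinarith
  calc D * (P * T + c + 1) * Real.exp (2 / q * (P * T + c) + max (e - 2 / q) 0 * (P * T + c) +
        ε * (A * T + c + (P * T + c)))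
      ≤ D * ((P * (2 / δ) + c + 1) * Real.exp (δ / 2 * T)) *
          Real.exp ((α * P + δ / 2) * T + (α * c + ε * (c + c))) :=
        mul_le_mul (mul_le_mul_of_nonneg_left e3 hD.le) (Real.exp_le_exp.2 e7)
          (Real.exp_pos _).le (by positivity)
    _ = _ := by
        have h5 : Real.exp ((α * P + δ) * T) = Real.exp (δ / 2 * T) *
            Real.exp ((α * P + δ / 2) * T) := by
          rw [← Real.exp_add]; congr 1; ring
        rw [Real.exp_add, h5]
        ring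

end Pool.Agent.Y729.AX
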